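import Pool.Agent.L0h86.JS.Stm
import Pool.Agent.N848.Q.J

/-!
# Project JS, module TRG: the translation in the split case
-/

set_option autoImplicit false
set_option linter.unusedVariables false

open scoped Classical

namespace Pool.Agent.L0h85.JS

open Finset
open Pool.Agent.Y703.CQ (nr)
open Pool.Agent.N973.ND (uu)
open Pool.Agent.N916.GB (Po sy Vt z2)
open Pool.Agent.L0h74.AP (Cp)
open Pool.Agent.L0h86.JS
open Pool.Agent.N848.Q (Dl ns ns_zero ns_nat ns_mul fac row_eq po_of star_of star_dvd_prod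
  not_dvd_prod_star prod_star_mod prod_star_natAbs sy_odd)

theorem trg1 (u a g m : ℕ) (hcp : Cp u a) (h56 : 56 ∣ u) (hg : Squarefree g)
    (hgu : ∀ p, p.Prime → p ∣ g → p ∣ u) (hm : Squarefree m) (hmu : m % u = a)
    (hf : flG g a = true) :
    (GdG true (sysG g a) m.primeFactors ↔ Gd7 (g * m).primeFactors) ∧ (g * m) % 8 = 7 := by
  constructor
  · unfold GdG sysG
    rw [if_pos rfl, if_pos hf, Nat.primeFactors_mul hg.ne_zero hm.ne_zero, union_comm]
  · have h8 : 8 ∣ u := (by norm_num : 8 ∣ 56).trans h56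
    have hma : m % 8 = a % 8 := by
      rw [← hmu, Nat.mod_mod_of_dvd _ h8]
    unfold flG at hf
    rw [decide_eq_true_iff] at hf
    rw [Nat.mul_mod, hma, ← Nat.mul_mod]
    exact hf.2

/-- the factor of the entries in the criterion -/
def ea (α : ZMod 2) : ℤ := if α = 1 then 2 else 1

lemma not_dvd_two {q : ℕ} (hq : Po q) : ¬ (q : ℤ) ∣ 2 := by
  rw [show (2 : ℤ) = ((2 : ℕ) : ℤ) from rfl, Int.natCast_dvd_natCast]
  exact fun h => hq.2 ((Nat.prime_dvd_prime_iff_eq hq.1 Nat.prime_two).1 h)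

lemma ns_ea {q : ℕ} (hq : Po q) (α : ZMod 2) {a : ℤ} (ha : ¬ (q : ℤ) ∣ a) :
    ns q (ea α * a) = ns q a + α * nr q 2 := by
  unfold ea
  rcases z2 α with h | h <;> rw [h]
  · rw [if_neg (by decide), one_mul, zero_mul, add_zero]
  · have e2 : ns q 2 = nr q 2 := ns_nat q 2
    rw [if_pos rfl, ns_mul hq.1 (not_dvd_two hq) ha, e2, one_mul, add_comm]

/-- the rows of the bordered system -/
lemma row7 {S : Finset ℕ} (hS : ∀ p ∈ S, Po p) {T : Finset ℕ} (hTS : T ⊆ S) (α : ZMod 2)
    {q : ℕ} (hq : q ∈ S) :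
    ∑ p ∈ S, ((if p ∈ T then (1 : ZMod 2) else 0) + (if q ∈ T then 1 else 0)) * nr p q +
      α * nr q 2 =
      if q ∈ T then ns q (ea α * ∏ p ∈ S \ T, Pool.Agent.N848.Q.star p) else ns q (ea α * ∏ p ∈ T, Pool.Agent.N848.Q.star p) := by
  have h := row_eq (t := false) (r := 0) (s := 0) hS (fun _ => ⟨rfl, rfl⟩) hTS hq
  have hV : Vt false S = S := by
    unfold Vt
    rw [if_neg (by simp)]
  have hD : Dl 0 0 = 1 := by
    unfold Dl
    rw [if_neg (by decide), if_neg (by decide), one_mul]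
  rw [hV, hD, one_mul] at h
  have h1 : ∑ p ∈ S, ((if p ∈ T then (1 : ZMod 2) else 0) + (if q ∈ T then 1 else 0)) * nr p q =
      ∑ p ∈ S, ((if p ∈ T then (1 : ZMod 2) else 0) + (if q ∈ T then 1 else 0)) * sy 0 0 q p := by
    refine sum_congr rfl fun p hp => ?_
    rw [sy_odd (hS p hp)]
  rw [h1, h]
  have hq' := hS q hq
  split_ifs with hqT
  · rw [ns_ea hq' α (not_dvd_prod_star hq' _ (fun p hp => hS p (mem_sdiff.1 hp).1)
      fun h => (mem_sdiff.1 h).2 hqT)]
  · rw [ns_ea hq' α (not_dvd_prod_star hq' _ (fun p hp => hS p (hTS hp)) hqT)]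

/-- the conditions at the primes -/
def Cd7 (α : ZMod 2) (a b : ℤ) : Prop := ∀ q : ℕ, q.Prime → q ≠ 2 →
  (((q : ℤ) ∣ b → IsSquare ((ea α * a : ℤ) : ZMod q)) ∧
    ((q : ℤ) ∣ a → IsSquare ((ea α * b : ℤ) : ZMod q)))

/-- the conditions and the rows -/
lemma cd_iff {S : Finset ℕ} (hS : ∀ p ∈ S, Po p) {T : Finset ℕ} (hTS : T ⊆ S) (α : ZMod 2) :
    Cd7 α (∏ p ∈ T, Pool.Agent.N848.Q.star p) (∏ p ∈ S \ T, Pool.Agent.N848.Q.star p) ↔ ∀ q ∈ S,
      ∑ p ∈ S, ((if p ∈ T then (1 : ZMod 2) else 0) + (if q ∈ T then 1 else 0)) * nr p q +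
        α * nr q 2 = 0 := by
  constructor
  · intro h q hq
    rw [row7 hS hTS α hq]
    have hq' := hS q hq
    split_ifs with hqT
    · rw [ns_zero]
      exact (h q hq'.1 hq'.2).2 (star_dvd_prod hqT)
    · rw [ns_zero]
      exact (h q hq'.1 hq'.2).1 (star_dvd_prod (mem_sdiff.2 ⟨hq, hqT⟩))
  · intro h q hq hq2
    have hqP : Po q := ⟨hq, hq2⟩
    constructor
    · intro hd
      have hqS : q ∈ S \ T := by
        by_contra hcon
        exact not_dvd_prod_star hqP _ (fun p hp => hS p (mem_sdiff.1 hp).1) hcon hd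
      have h4 := h q (mem_sdiff.1 hqS).1
      rwa [row7 hS hTS α (mem_sdiff.1 hqS).1, if_neg (mem_sdiff.1 hqS).2, ns_zero] at h4
    · intro hd
      have hqT : q ∈ T := by
        by_contra hcon
        exact not_dvd_prod_star hqP _ (fun p hp => hS p (hTS hp)) hcon hd
      have h4 := h q (hTS hqT)
      rwa [row7 hS hTS α (hTS hqT), if_pos hqT, ns_zero] at h4

lemma ea_zero : ea 0 = 1 := if_neg (by decide)
lemma ea_one : ea 1 = 2 := if_pos rfl

/-- a factorization of the product of the prime discriminants -/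
lemma fac7 {S : Finset ℕ} (hS : ∀ p ∈ S, Po p) {a b : ℤ} (h : ∏ p ∈ S, Pool.Agent.N848.Q.star p = a * b)
    (ha : a % 8 = 1) : ∃ T ⊆ S, a = ∏ p ∈ T, Pool.Agent.N848.Q.star p ∧ b = ∏ p ∈ S \ T, Pool.Agent.N848.Q.star p := by
  have hD : Dl 0 0 = 1 := by
    unfold Dl
    rw [if_neg (by decide), if_neg (by decide), one_mul]
  have h' : Dl 0 0 * ∏ p ∈ S, Pool.Agent.N848.Q.star p = a * b := by rw [hD, one_mul, h]
  obtain ⟨T, hT, h1, h2⟩ := fac (r := 0) (s := 0) hS h' ha
  rw [hD, one_mul] at h2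
  exact ⟨T, hT, h1, h2⟩

lemma sum_of_mod {T : Finset ℕ} (hT : ∀ p ∈ T, Po p) (h : (∏ p ∈ T, Pool.Agent.N848.Q.star p) % 8 = 1) :
    ∑ p ∈ T, nr p 2 = 0 := by
  by_contra h1
  rw [prod_star_mod T hT, if_neg h1] at h
  norm_num at h

/-- the sum of the products with the indicator -/
lemma sum_ind {S T : Finset ℕ} (hTS : T ⊆ S) :
    ∑ p ∈ S, (if p ∈ T then (1 : ZMod 2) else 0) * nr p 2 = ∑ p ∈ T, nr p 2 := by
  rw [← sum_sdiff hTS, sum_eq_zero (s := S \ T) fun p hp => by
    rw [if_neg (mem_sdiff.1 hp).2, zero_mul], zero_add]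
  refine sum_congr rfl fun p hp => ?_
  rw [if_pos hp, one_mul]

theorem trg2 (D : ℕ) (hD : Squarefree D) (h8 : D % 8 = 7) :
    Gd7 D.primeFactors ↔ Cr7 (-(D : ℤ)) := by
  set S := D.primeFactors with hSd
  have hS : ∀ p ∈ S, Po p := po_of (by omega)
  have hM : ∏ p ∈ S, Pool.Agent.N848.Q.star p = -(D : ℤ) := by
    have := star_of (s := 0) hD (by rw [if_pos rfl]; omega)
    rwa [if_pos rfl] at this
  have hneg : ¬ (0 : ℤ) < -(D : ℤ) := by
    have : (0 : ℤ) ≤ D := Nat.cast_nonneg _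
    linarith
  rw [← hM] at hneg ⊢
  constructor
  · intro hG
    constructor
    · intro a b hab ha _ hcd
      obtain ⟨T, hTS, h1, h2⟩ := fac7 hS hab ha
      have hTe : ∑ p ∈ T, nr p 2 = 0 := sum_of_mod (fun p hp => hS p (hTS hp)) (by rwa [← h1])
      have hc : Cd7 0 (∏ p ∈ T, Pool.Agent.N848.Q.star p) (∏ p ∈ S \ T, Pool.Agent.N848.Q.star p) := by
        rw [← h1, ← h2]
        unfold Cd7
        rw [ea_zero, one_mul, one_mul]
        exact hcd
      have h3 := (hG (fun p => if p ∈ T then 1 else 0) 0 ((cd_iff hS hTS 0).1 hc)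
        (by rw [sum_ind hTS]; exact hTe)).1
      rcases T.eq_empty_or_nonempty with h4 | ⟨p₀, hp₀⟩
      · left
        rw [h1, h4, prod_empty]
      · right
        have h5 : T = S := by
          refine Subset.antisymm hTS fun p hp => ?_
          have h6 := h3 p hp p₀ (hTS hp₀)
          simp only [if_pos hp₀] at h6
          by_contra hpT
          rw [if_neg hpT] at h6
          exact zero_ne_one h6
        rw [h1, h5]
    · intro a b hab ha _ hcd
      obtain ⟨T, hTS, h1, h2⟩ := fac7 hS hab ha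
      have hTe : ∑ p ∈ T, nr p 2 = 0 := sum_of_mod (fun p hp => hS p (hTS hp)) (by rwa [← h1])
      have hc : Cd7 1 (∏ p ∈ T, Pool.Agent.N848.Q.star p) (∏ p ∈ S \ T, Pool.Agent.N848.Q.star p) := by
        rw [← h1, ← h2]
        unfold Cd7
        rw [ea_one]
        exact hcd
      have h3 := (hG (fun p => if p ∈ T then 1 else 0) 1 ((cd_iff hS hTS 1).1 hc)
        (by rw [sum_ind hTS]; exact hTe)).2
      exact one_ne_zero h3
  · rintro ⟨hC1, hC2⟩ x α hrow hsum
    set T := S.filter fun p => x p = 1 with hT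
    have hTS : T ⊆ S := filter_subset _ _
    have hind : ∀ p ∈ S, (if p ∈ T then (1 : ZMod 2) else 0) = x p := by
      intro p hp
      by_cases h : x p = 1
      · rw [if_pos (mem_filter.2 ⟨hp, h⟩), h]
      · have h5 : p ∉ T := fun h' => h (mem_filter.1 h').2
        rw [if_neg h5, (z2 _).resolve_right h]
    have hTe : ∑ p ∈ T, nr p 2 = 0 := by
      refine (sum_ind hTS).symm.trans (Eq.trans (sum_congr rfl fun p hp => ?_) hsum)
      rw [hind p hp]
    have ha : (∏ p ∈ T, Pool.Agent.N848.Q.star p) % 8 = 1 := by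
      rw [prod_star_mod T fun p hp => hS p (hTS hp), if_pos hTe]
    have hab : ∏ p ∈ S, Pool.Agent.N848.Q.star p = (∏ p ∈ T, Pool.Agent.N848.Q.star p) * ∏ p ∈ S \ T, Pool.Agent.N848.Q.star p := by
      rw [← prod_sdiff hTS]
      ring
    have hc : Cd7 α (∏ p ∈ T, Pool.Agent.N848.Q.star p) (∏ p ∈ S \ T, Pool.Agent.N848.Q.star p) := by
      rw [cd_iff hS hTS]
      intro q hq
      refine Eq.trans ?_ (hrow q hq)
      congr 1
      refine sum_congr rfl fun p hp => ?_
      rw [hind p hp, hind q hq]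
    rcases z2 α with hα | hα
    · refine ⟨?_, hα⟩
      have h3 := hC1 _ _ hab ha (fun h => absurd h hneg) (by
        unfold Cd7 at hc
        rw [hα, ea_zero, one_mul, one_mul] at hc
        exact hc)
      intro p hp q hq
      rcases h3 with h3 | h3
      · have hT0 : ∀ p ∈ S, p ∉ T := by
          intro p hp hpT
          have h4 : (p : ℤ) ∣ 1 := by
            rw [← h3]
            exact star_dvd_prod hpT
          have h5 := (hS p hp).1.one_lt
          rw [Int.natCast_dvd] at h4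
          exact h5.ne' (Nat.dvd_one.1 h4)
        rw [← hind p hp, ← hind q hq, if_neg (hT0 p hp), if_neg (hT0 q hq)]
      · have hT1 : ∀ p ∈ S, p ∈ T := by
          intro p hp
          by_contra hpT
          refine not_dvd_prod_star (hS p hp) T (fun q hq => hS q (hTS hq)) hpT ?_
          rw [h3]
          exact star_dvd_prod hp
        rw [← hind p hp, ← hind q hq, if_pos (hT1 p hp), if_pos (hT1 q hq)]
    · exfalso
      refine hC2 _ _ hab ha (fun h => absurd h hneg) ?_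
      unfold Cd7 at hc
      rw [hα, ea_one] at hc
      exact hc

theorem t_TRG : S_TRG := ⟨fun u a g m h1 h2 h3 h4 h5 h6 h7 => trg1 u a g m h1 h2 h3 h4 h5 h6 h7,
  fun D h1 h2 => trg2 D h1 h2⟩

end Pool.Agent.L0h85.JS
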